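import Pool.Agent.Lib.H94G.Main

/-!
# The admissibility problem for GLP is decidable

`Form.code` is a bijective Goedel numbering of the formulas over the variables `p_0, p_1, ...`, with
inverse `Form.ofCode`. The set of the pairs of numbers `(a, b)` such that the rule
`ofCode a / ofCode b` is admissible in GLP is recursive.
-/

namespace Pool.Agent.Results.MP_a8f639_lc.AdmissibilityDecidable

open H94G

theorem result :
    (∀ φ : Form ℕ, Form.ofCode (Form.code φ) = φ) ∧
    (∀ n : ℕ, Form.code (Form.ofCode n) = n) ∧
    ComputablePred (fun p : ℕ × ℕ => Admissible (Form.ofCode p.1) (Form.ofCode p.2)) :=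
  ⟨ofCode_code, code_ofCode, admissible_computable⟩

end Pool.Agent.Results.MP_a8f639_lc.AdmissibilityDecidable
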